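import Mathlib
import Pool.Agent.H27.DReflProof

set_option autoImplicit false

namespace Pool.Agent.Results.MP_c8df5e_gt.Products

open Pool.Agent.H27.DRefl

universe u

theorem result (ι : Type u) (X Y : ι → Type u) [∀ i, TopologicalSpace (X i)]
    [∀ i, T0Space (X i)] [∀ i, TopologicalSpace (Y i)] (μ : ∀ i, X i → Y i)
    (h : ∀ i, IsDReflection (X i) (Y i) (μ i))
    (W : Type u) [TopologicalSpace W] (ν : (∀ i, X i) → W)
    (hW : IsDReflection (∀ i, X i) W ν) :
    ∃ e : W ≃ₜ (∀ i, Y i), ∀ x i, e (ν x) i = μ i (x i) := by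
  obtain ⟨e, he⟩ := refl_unique (refl_pi h) hW
  exact ⟨e, fun x i => congrFun (he x) i⟩

end Pool.Agent.Results.MP_c8df5e_gt.Products
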